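import Pool.Agent.Helper49.TP.StM

/-!
# Project TP, module BLY: balancing weights of a dense tripartite graph
-/

set_option autoImplicit false

namespace Pool.Agent.Helper51.TP

open Finset Pool.Agent.Helper49.TP Pool.Agent.Helper93.IA Pool.Agent.Helper38.IA

private lemma dlow {x y n : ℕ} {δ : ℝ} (h : x + y = n) (h2 : (y : ℝ) ≤ (1 / 4 - δ) * n) :
    3 / 4 * (n : ℝ) + δ * n ≤ x := by
  have : (x : ℝ) + y = n := by exact_mod_cast h
  linarith

private lemma split {ι : Type} [Fintype ι] (P : ι → Prop) [DecidablePred P] (f : ι → ℝ) :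
    ∑ y, (if P y then 1 - f y else 0)
      = ∑ y, (if P y then (1 : ℝ) else 0) - ∑ y, (if P y then f y else 0) := by
  rw [← Finset.sum_sub_distrib]
  refine Finset.sum_congr rfl fun y _ => ?_
  split_ifs <;> ring

/-- Bounds of one weight. -/
private lemma wbd (t x y : ℝ) (h0 : 0 ≤ t) (h1 : t ≤ 1) (hx : |x| ≤ t / 2)
    (hy : |y| ≤ t / 2) : 0 ≤ t + (1 - t) * (x - y) ∧ t + (1 - t) * (x - y) ≤ 2 * t := by
  obtain ⟨x1, x2⟩ := abs_le.mp hx
  obtain ⟨y1, y2⟩ := abs_le.mp hy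
  have h3 : 0 ≤ 1 - t := by linarith
  have h4 : (1 - t) * (x - y) ≤ (1 - t) * t := mul_le_mul_of_nonneg_left (by linarith) h3
  have h5 : (1 - t) * (-t) ≤ (1 - t) * (x - y) := mul_le_mul_of_nonneg_left (by linarith) h3
  constructor <;> nlinarith

theorem hBLY : StBLY := by
  intro hL1 hL2 hT0 δ hδ0 hδ1
  intro α β γ _ _ _ _ _ _ n hn cα cβ cγ A B C b hNear hb hb1 hImb
  have hn' : (0 : ℝ) < n := by exact_mod_cast hn
  obtain ⟨hsym, hbd, hdiag, dA, dB, dC, hbal⟩ := hT0 α β γ A B C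
  obtain ⟨⟨nA1, nA2⟩, ⟨nB1, nB2⟩, nC1, nC2⟩ := hNear
  obtain ⟨iA, iB, iC⟩ := hImb
  have hcard : (Fintype.card (α ⊕ β ⊕ γ) : ℝ) = 3 * n := by
    rw [Fintype.card_sum, Fintype.card_sum, cα, cβ, cγ]
    push_cast
    ring
  have : Nonempty α := Fintype.card_pos_iff.mp (by omega)
  have hδ : (0 : ℝ) < 4 * δ * n := by positivity
  have hdeg : ∀ v, (Fintype.card (α ⊕ β ⊕ γ) : ℝ) + 4 * δ * n
      ≤ 2 * ∑ y, Wt A B C v y + 2 := by
    intro v
    rw [hcard]
    rcases v with a | b' | c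
    · rw [dA a]
      have h1 := dlow ((d1_add_m1 A a).trans cβ) (nA1 a)
      have h2 := dlow ((d2_add_m2 C a).trans cγ) (nC2 a)
      linarith
    · rw [dB b']
      have h1 := dlow ((d1_add_m1 B b').trans cγ) (nB1 b')
      have h2 := dlow ((d2_add_m2 A b').trans cα) (nA2 b')
      linarith
    · rw [dC c]
      have h1 := dlow ((d1_add_m1 C c).trans cα) (nC1 c)
      have h2 := dlow ((d2_add_m2 B c).trans cβ) (nB2 c)
      linarith
  have key := fun (p : α ⊕ β ⊕ γ → ℝ) (s : ℝ) =>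
    hL2 (α ⊕ β ⊕ γ) (Wt A B C) p (4 * δ * n) s hbd hdiag hδ hdeg
  have hrig : ∀ p : α ⊕ β ⊕ γ → ℝ, (∀ v, Lap (Wt A B C) p v = 0) → ∀ v y, p v = p y := by
    intro p hp
    have hc0 : (Fintype.card (α ⊕ β ⊕ γ) : ℝ) ≠ 0 := by rw [hcard]; positivity
    set μ : ℝ := (∑ y, p y) / Fintype.card (α ⊕ β ⊕ γ) with hμ
    have hq : ∑ v, (fun v => p v - μ) v = 0 := by
      simp only [Finset.sum_sub_distrib, Finset.sum_const, Finset.card_univ, nsmul_eq_mul]
      rw [hμ]
      field_simp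
      ring
    have hL : ∀ v, |Lap (Wt A B C) (fun v => p v - μ) v| ≤ 0 := by
      intro v
      have : Lap (Wt A B C) (fun v => p v - μ) v = Lap (Wt A B C) p v := by
        unfold Lap
        refine Finset.sum_congr rfl fun y _ => ?_
        ring
      rw [this, hp v, abs_zero]
    have h0 := key _ 0 hq hL
    have hz : ∀ v, p v = μ := by
      intro v
      have h1 : (4 * δ * (n : ℝ)) * |p v - μ| ≤ 0 := h0 v
      have h2 : |p v - μ| ≤ 0 := by
        by_contra h
        push Not at h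
        nlinarith [mul_pos hδ h]
      have h3 := abs_nonpos_iff.mp h2
      linarith
    intro v y
    rw [hz v, hz y]
  obtain ⟨p, hp0, hp⟩ := hL1 (α ⊕ β ⊕ γ) (Wt A B C)
    (Sum.elim (fun a => (d1 A a : ℝ) - d2 C a)
      (Sum.elim (fun b' => (d1 B b' : ℝ) - d2 A b') (fun c => (d1 C c : ℝ) - d2 B c)))
    hsym hrig (by
      simp only [Fintype.sum_sum_type, Sum.elim_inl, Sum.elim_inr, Finset.sum_sub_distrib,
        sum_d1, sum_d2]
      ring)
  set t : ℝ := b / (2 * δ) with ht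
  have ht0 : 0 ≤ t := by positivity
  have ht1 : t ≤ 1 := by
    rw [ht, div_le_one (by positivity)]
    linarith
  have h2t : 2 * t = b / δ := by
    rw [ht]
    field_simp
  have hpb : ∀ v, |p v| ≤ t / 2 := by
    have h0 := key p (b * n) hp0 (by
      intro v
      rw [hp v]
      rcases v with a | b' | c
      · exact iA a
      · exact iB b'
      · exact iC c)
    intro v
    have h1 := h0 v
    have h2 : (n : ℝ) * (4 * δ * |p v|) ≤ n * b := by linarith
    have h3 := le_of_mul_le_mul_left h2 hn'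
    rw [ht, div_div, le_div_iff₀ (by positivity)]
    linarith
  obtain ⟨e1, e2, e3⟩ := hbal p (t) (1 - t)
  refine ⟨fun a b' => t + (1 - t) * (p (Sum.inl a) - p (Sum.inr (Sum.inl b'))),
    fun b' c => t + (1 - t) * (p (Sum.inr (Sum.inl b')) - p (Sum.inr (Sum.inr c))),
    fun c a => t + (1 - t) * (p (Sum.inr (Sum.inr c)) - p (Sum.inl a)),
    fun a b' => h2t ▸ wbd t _ _ ht0 ht1 (hpb _) (hpb _), fun b' c => h2t ▸ wbd t _ _ ht0 ht1 (hpb _) (hpb _),
    fun c a => h2t ▸ wbd t _ _ ht0 ht1 (hpb _) (hpb _), ?_, ?_, ?_⟩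
  · intro a
    have h := e1 a
    have h2 := hp (Sum.inl a)
    simp only [Sum.elim_inl] at h2
    rw [h2] at h
    rw [split (fun b' => (a, b') ∈ A), split (fun c => (c, a) ∈ C), ← d1_eq_sum, ← d2_eq_sum]
    linarith
  · intro b'
    have h := e2 b'
    have h2 := hp (Sum.inr (Sum.inl b'))
    simp only [Sum.elim_inl, Sum.elim_inr] at h2
    rw [h2] at h
    rw [split (fun c => (b', c) ∈ B), split (fun a => (a, b') ∈ A), ← d1_eq_sum, ← d2_eq_sum]
    linarith
  · intro c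
    have h := e3 c
    have h2 := hp (Sum.inr (Sum.inr c))
    simp only [Sum.elim_inr] at h2
    rw [h2] at h
    rw [split (fun a => (c, a) ∈ C), split (fun b' => (b', c) ∈ B), ← d1_eq_sum, ← d2_eq_sum]
    linarith

end Pool.Agent.Helper51.TP
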