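import Pool.Agent.Helper49.TP.StF

/-! # Project TP, module FCT: the contradiction -/

set_option autoImplicit false

namespace Pool.Agent.Helper51.TP

open Finset Pool.Agent.Helper49.TP Pool.Agent.Helper93.IA

/-- The one-sided inequality for the pairs where `γ` is minimal. -/
theorem one (hFBR : StFBR) (hFON : StFON) {n : ℕ} (F Λ M : ℝ) (FA FB : Fin n → Fin n → ℝ)
    (x : Fin n → Fin n → Fin n → ℝ) (α β γ : Fin n → Fin n → ℝ) (α0 β0 γ0 : ℝ)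
    (G : Equiv.Perm (Fin n) × Equiv.Perm (Fin n) → Prop) (hΛ : 0 < Λ)
    (hM : M = -(α0 + β0 + γ0)) (hM0 : 0 ≤ M) (hF0 : 0 ≤ F)
    (hFA : ∀ r c, 0 ≤ FA r c ∧ FA r c ≤ F) (hFB : ∀ c s, 0 ≤ FB c s ∧ FB c s ≤ F)
    (hLA : ∀ r, ∑ c, FA r c = n) (hLB : ∀ s, ∑ c, FB c s = n) (hα : ∀ r c, α0 ≤ α r c)
    (hβ : ∀ c s, β0 ≤ β c s) (hγ : ∃ s r, γ s r = γ0)
    (hx : ∀ r c s, 0 ≤ x r c s ∧ x r c s ≤ Λ) (hxs : ∀ s r, ∑ c, x r c s ≤ n * F)
    (hS : ∀ r c s, x r c s < Λ → 0 ≤ α r c + β c s + γ s r)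
    (hG : ∀ g, G g → ∀ s r, γ (g.1 s) (g.2 r) = γ s r)
    (hT1 : ∀ s s', ∃ g, G g ∧ g.1 s = s') (hT2 : ∀ r r', ∃ g, G g ∧ g.2 r = r') :
    (n : ℝ) ^ 2 * M * (2 - F - F ^ 2 / Λ) ≤
      ∑ r, ∑ c, (α r c - α0) * FA r c + ∑ c, ∑ s, (β c s - β0) * FB c s := by
  classical
  set Z : Finset (Fin n × Fin n) := univ.filter fun p => γ p.1 p.2 = γ0 with hZ
  have hmem : ∀ s r, (s, r) ∈ Z ↔ γ s r = γ0 := fun s r => by simp [hZ]
  obtain ⟨d, hd0, hd1, hd2⟩ := hFBR n G Z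
    (by
      obtain ⟨s, r, h⟩ := hγ
      exact ⟨(s, r), (hmem s r).2 h⟩)
    (fun g hg s r => by rw [hmem, hmem, hG g hg]) hT1 hT2
  refine hFON n F Λ M FA FB (fun r c => α r c - α0) (fun c s => β c s - β0) Z d
    (fun s r => univ.filter fun c => x r c s = Λ) hΛ hM0 hF0 hFA hFB hLA hLB
    (fun r c => by linarith [hα r c]) (fun c s => by linarith [hβ c s]) hd0 hd1 hd2 ?_ ?_
  · intro s r _
    rw [le_div_iff₀ hΛ]
    have h1 : ∑ c ∈ univ.filter (fun c => x r c s = Λ), x r c s ≤ ∑ c, x r c s :=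
      Finset.sum_le_sum_of_subset_of_nonneg (Finset.filter_subset _ _)
        (fun c _ _ => (hx r c s).1)
    have h2 : ∑ c ∈ univ.filter (fun c => x r c s = Λ), x r c s
        = ((univ.filter fun c => x r c s = Λ).card : ℝ) * Λ := by
      rw [Finset.sum_congr rfl (fun c hc => (Finset.mem_filter.1 hc).2), Finset.sum_const,
        nsmul_eq_mul]
    linarith [hxs s r]
  · intro s r hsr c hc
    have h1 : x r c s < Λ := by
      refine lt_of_le_of_ne (hx r c s).2 fun h => hc ?_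
      simp [h]
    have h2 := hS r c s h1
    rw [(hmem s r).1 hsr] at h2
    rw [hM]
    linarith

theorem exmin {n : ℕ} (hn : 0 < n) (α : Fin n → Fin n → ℝ) :
    ∃ α0, (∀ r c, α0 ≤ α r c) ∧ ∃ r c, α r c = α0 := by
  have : Nonempty (Fin n) := ⟨⟨0, hn⟩⟩
  obtain ⟨p, hp⟩ := Finite.exists_min (fun p : Fin n × Fin n => α p.1 p.2)
  exact ⟨α p.1 p.2, fun r c => hp (r, c), p.1, p.2, rfl⟩

theorem sum_sub' {n : ℕ} (α FA : Fin n → Fin n → ℝ) (α0 : ℝ) (h : ∀ r, ∑ c, FA r c = n) :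
    ∑ r, ∑ c, (α r c - α0) * FA r c = ∑ r, ∑ c, FA r c * α r c - α0 * (n : ℝ) ^ 2 := by
  have h1 : ∀ r, ∑ c, (α r c - α0) * FA r c = ∑ c, FA r c * α r c - α0 * n := by
    intro r
    rw [← h r, Finset.mul_sum, ← Finset.sum_sub_distrib]
    exact Finset.sum_congr rfl fun c _ => by ring
  simp only [h1]
  rw [Finset.sum_sub_distrib, Finset.sum_const, Finset.card_univ, Fintype.card_fin, nsmul_eq_mul]
  ring

theorem sum_lin {n : ℕ} (α FA : Fin n → Fin n → ℝ) (t : ℝ) (y : Fin n → Fin n → ℝ)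
    (h : ∀ r c, y r c = n * (1 + t * (FA r c - 1))) :
    ∑ r, ∑ c, y r c * α r c = n * (∑ r, ∑ c, α r c + t * ∑ r, ∑ c, (FA r c - 1) * α r c) := by
  simp only [Finset.mul_sum, ← Finset.sum_add_distrib, h]
  exact Finset.sum_congr rfl fun r _ => Finset.sum_congr rfl fun c _ => by ring

theorem sum_Dv {n : ℕ} (α FA : Fin n → Fin n → ℝ) :
    ∑ r, ∑ c, (FA r c - 1) * α r c = ∑ r, ∑ c, FA r c * α r c - ∑ r, ∑ c, α r c := by
  simp only [← Finset.sum_sub_distrib]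
  exact Finset.sum_congr rfl fun r _ => Finset.sum_congr rfl fun c _ => by ring

theorem hFCT : StFCT := by
  intro hFBR hFON n F Λ t FA FB FC x α β γ hn hΛ hFΛ hFA hFB hFC hLA hLB hLC hTr ht0 ht1 hSol hSgn
    hDv hInv
  obtain ⟨hx, hxA, hxB, hxC⟩ := hSol
  obtain ⟨hTr1, hTr2, hTr3⟩ := hTr
  have hn' : (0 : ℝ) < n := by exact_mod_cast hn
  have hΛ0 : 0 < Λ := by linarith
  obtain ⟨α0, hα, hα'⟩ := exmin hn α
  obtain ⟨β0, hβ, hβ'⟩ := exmin hn β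
  obtain ⟨γ0, hγ, hγ'⟩ := exmin hn γ
  have hF1 : 1 ≤ F := by
    have h1 : ∑ c, FA ⟨0, hn⟩ c ≤ ∑ _c : Fin n, F :=
      Finset.sum_le_sum fun c _ => (hFA _ c).2
    rw [hLA.1, Finset.sum_const, Finset.card_univ, Fintype.card_fin, nsmul_eq_mul] at h1
    by_contra h
    push Not at h
    nlinarith
  have hF0 : 0 ≤ F := by linarith
  have bnd : ∀ z : ℝ, z ≤ F → (n : ℝ) * (1 + t * (z - 1)) ≤ n * F := by
    intro z hz
    refine mul_le_mul_of_nonneg_left ?_ hn'.le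
    nlinarith
  -- step 1
  set VA := ∑ r, ∑ c, FA r c * α r c with hVA
  set VB := ∑ c, ∑ s, FB c s * β c s with hVB
  set VC := ∑ s, ∑ r, FC s r * γ s r with hVC
  have hV : VA + VB + VC < 0 := by
    have h1 : ∑ r, ∑ c, ∑ s, x r c s * (α r c + β c s + γ s r) ≤ 0 := by
      refine Finset.sum_nonpos fun r _ => Finset.sum_nonpos fun c _ =>
        Finset.sum_nonpos fun s _ => ?_
      rcases (hx r c s).1.eq_or_lt with h | h
      · rw [← h, zero_mul]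
      · exact mul_nonpos_of_nonneg_of_nonpos h.le ((hSgn r c s).2 h)
    have h2 : ∑ r, ∑ c, ∑ s, x r c s * (α r c + β c s + γ s r)
        = ∑ r, ∑ c, (∑ s, x r c s) * α r c + ∑ c, ∑ s, (∑ r, x r c s) * β c s +
          ∑ s, ∑ r, (∑ c, x r c s) * γ s r := by
      have e1 : ∑ c, ∑ s, (∑ r, x r c s) * β c s = ∑ r, ∑ c, ∑ s, x r c s * β c s := by
        simp only [Finset.sum_mul]
        rw [Finset.sum_comm (s := (univ : Finset (Fin n))) (t := (univ : Finset (Fin n)))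
          (f := fun r c => ∑ s, x r c s * β c s)]
        exact Finset.sum_congr rfl fun c _ => Finset.sum_comm
      have e2 : ∑ s, ∑ r, (∑ c, x r c s) * γ s r = ∑ r, ∑ c, ∑ s, x r c s * γ s r := by
        simp only [Finset.sum_mul]
        rw [Finset.sum_comm]
        exact Finset.sum_congr rfl fun r _ => Finset.sum_comm
      have e3 : ∑ r, ∑ c, (∑ s, x r c s) * α r c = ∑ r, ∑ c, ∑ s, x r c s * α r c := by
        simp only [Finset.sum_mul]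
      rw [e1, e2, e3]
      simp only [← Finset.sum_add_distrib]
      refine Finset.sum_congr rfl fun r _ => Finset.sum_congr rfl fun c _ =>
        Finset.sum_congr rfl fun s _ => ?_
      ring
    rw [h2, sum_lin α FA t _ hxA, sum_lin β FB t _ hxB, sum_lin γ FC t _ hxC] at h1
    unfold Dv at hDv
    rw [sum_Dv, sum_Dv, sum_Dv] at h1 hDv
    rw [← hVA, ← hVB, ← hVC] at h1 hDv
    have h3 : (n : ℝ) * ((∑ r, ∑ c, α r c + ∑ r, ∑ c, β r c + ∑ r, ∑ c, γ r c) +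
        t * (VA - ∑ r, ∑ c, α r c + (VB - ∑ r, ∑ c, β r c) + (VC - ∑ r, ∑ c, γ r c))) ≤ 0 := by
      linarith
    have h4 : (∑ r, ∑ c, α r c + ∑ r, ∑ c, β r c + ∑ r, ∑ c, γ r c) +
        t * (VA - ∑ r, ∑ c, α r c + (VB - ∑ r, ∑ c, β r c) + (VC - ∑ r, ∑ c, γ r c)) ≤ 0 := by
      by_contra h
      push Not at h
      exact absurd h3 (not_le.2 (mul_pos hn' h))
    have h5 : (1 - t) * (VA - ∑ r, ∑ c, α r c + (VB - ∑ r, ∑ c, β r c) +
        (VC - ∑ r, ∑ c, γ r c)) < 0 := mul_neg_of_pos_of_neg (by linarith) hDv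
    linarith
  have sA := sum_sub' α FA α0 hLA.1
  have sB := sum_sub' β FB β0 hLB.1
  have sC := sum_sub' γ FC γ0 hLC.1
  rw [← hVA] at sA
  rw [← hVB] at sB
  rw [← hVC] at sC
  have nA : 0 ≤ ∑ r, ∑ c, (α r c - α0) * FA r c := Finset.sum_nonneg fun r _ =>
    Finset.sum_nonneg fun c _ => mul_nonneg (by linarith [hα r c]) (hFA r c).1
  have nB : 0 ≤ ∑ c, ∑ s, (β c s - β0) * FB c s := Finset.sum_nonneg fun c _ =>
    Finset.sum_nonneg fun s _ => mul_nonneg (by linarith [hβ c s]) (hFB c s).1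
  have nC : 0 ≤ ∑ s, ∑ r, (γ s r - γ0) * FC s r := Finset.sum_nonneg fun s _ =>
    Finset.sum_nonneg fun r _ => mul_nonneg (by linarith [hγ s r]) (hFC s r).1
  set M : ℝ := -(α0 + β0 + γ0) with hM
  have hn2 : (0 : ℝ) < (n : ℝ) ^ 2 := by positivity
  have hMn : 0 < M * (n : ℝ) ^ 2 := by
    rw [hM]
    linarith
  have hM0 : 0 < M := by
    by_contra h
    push Not at h
    nlinarith
  -- step 2
  have q1 := one hFBR hFON F Λ M FA FB x α β γ α0 β0 γ0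
    (fun g => ∃ h, Pr2 FA FB FC h ∧ g = (h.2.2, h.1)) hΛ0 hM hM0.le hF0 hFA hFB hLA.1 hLB.2 hα hβ
    hγ' hx (fun s r => by rw [hxC]; exact bnd _ (hFC s r).2) (fun r c s => (hSgn r c s).1)
    (by
      rintro _ ⟨h, hh, rfl⟩ s r
      exact (hInv h hh).2.2 s r)
    (fun s s' => by
      obtain ⟨h, hh, e⟩ := hTr3 s s'
      exact ⟨_, ⟨h, hh, rfl⟩, e⟩)
    (fun r r' => by
      obtain ⟨h, hh, e⟩ := hTr1 r r'
      exact ⟨_, ⟨h, hh, rfl⟩, e⟩)
  have q2 := one hFBR hFON F Λ M FB FC (fun c s r => x r c s) β γ α β0 γ0 α0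
    (fun g => ∃ h, Pr2 FA FB FC h ∧ g = (h.1, h.2.1)) hΛ0 (by rw [hM]; ring) hM0.le hF0 hFB hFC
    hLB.1 hLC.2 hβ hγ hα' (fun c s r => hx r c s)
    (fun r c => by rw [hxA]; exact bnd _ (hFA r c).2)
    (fun c s r hlt => by linarith [(hSgn r c s).1 hlt])
    (by
      rintro _ ⟨h, hh, rfl⟩ r c
      exact (hInv h hh).1 r c)
    (fun s s' => by
      obtain ⟨h, hh, e⟩ := hTr1 s s'
      exact ⟨_, ⟨h, hh, rfl⟩, e⟩)
    (fun r r' => by
      obtain ⟨h, hh, e⟩ := hTr2 r r'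
      exact ⟨_, ⟨h, hh, rfl⟩, e⟩)
  have q3 := one hFBR hFON F Λ M FC FA (fun s r c => x r c s) γ α β γ0 α0 β0
    (fun g => ∃ h, Pr2 FA FB FC h ∧ g = (h.2.1, h.2.2)) hΛ0 (by rw [hM]; ring) hM0.le hF0 hFC hFA
    hLC.1 hLA.2 hγ hα hβ' (fun s r c => hx r c s)
    (fun c s => by rw [hxB]; exact bnd _ (hFB c s).2)
    (fun s r c hlt => by linarith [(hSgn r c s).1 hlt])
    (by
      rintro _ ⟨h, hh, rfl⟩ c s
      exact (hInv h hh).2.1 c s)
    (fun s s' => by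
      obtain ⟨h, hh, e⟩ := hTr2 s s'
      exact ⟨_, ⟨h, hh, rfl⟩, e⟩)
    (fun r r' => by
      obtain ⟨h, hh, e⟩ := hTr3 r r'
      exact ⟨_, ⟨h, hh, rfl⟩, e⟩)
  -- step 3
  have hc : 2 / 3 ≤ 2 - F - F ^ 2 / Λ := by linarith
  have h6 : (n : ℝ) ^ 2 * M * (2 / 3) ≤ (n : ℝ) ^ 2 * M * (2 - F - F ^ 2 / Λ) :=
    mul_le_mul_of_nonneg_left hc (by positivity)
  have h7 : M * (n : ℝ) ^ 2 = -(α0 * (n : ℝ) ^ 2) - β0 * (n : ℝ) ^ 2 - γ0 * (n : ℝ) ^ 2 := by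
    rw [hM]
    ring
  linarith

end Pool.Agent.Helper51.TP
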